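import Pool.Agent.Run7.h875.TS.StmA

/-!
# Piece AVG of project TS (helper550)
-/

set_option autoImplicit false
set_option linter.all false

open Polynomial IsDedekindDomain
open Pool.Agent.N874.PP Pool.Agent.TH115.GD
open scoped Classical

namespace Run7.h550.TS

open Run7.h875.TS

/-! ### The renewal inequality -/

theorem evn (C : ℝ) : ∃ N₁ : ℕ, ∀ N ≥ N₁, C * (1 + N) ≤ (2 : ℝ) ^ ((N : ℝ) / 80) := by
  have h1 : Filter.Tendsto (fun x : ℝ => C * (1 + x) / (2 : ℝ) ^ (x / 80)) Filter.atTop (nhds 0) := by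
    have h2 := isLittleO_rpow_exp_pos_mul_atTop 1 (b := Real.log 2 / 80)
      (by have := Real.log_pos (show (1:ℝ) < 2 by norm_num); positivity)
    have h3 := isLittleO_rpow_exp_pos_mul_atTop 0 (b := Real.log 2 / 80)
      (by have := Real.log_pos (show (1:ℝ) < 2 by norm_num); positivity)
    have h4 := ((h3.add h2).const_mul_left C).tendsto_div_nhds_zero
    refine h4.congr' ?_
    filter_upwards with x
    rw [Real.rpow_zero, Real.rpow_one, Real.rpow_def_of_pos (by norm_num : (0:ℝ) < 2)]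
    congr 2
    ring
  have h5 := h1.eventually (gt_mem_nhds (show (0:ℝ) < 1 by norm_num))
  rw [Filter.eventually_atTop] at h5
  obtain ⟨x₀, hx₀⟩ := h5
  refine ⟨⌈x₀⌉₊, fun N hN => ?_⟩
  have := hx₀ N ((Nat.le_ceil x₀).trans (by exact_mod_cast hN))
  rw [div_lt_one (by positivity)] at this
  exact this.le

theorem renewal (τ : ℕ → ℝ) (hτ : ∀ n, 0 ≤ τ n) (C₀ : ℝ) (hC : 0 ≤ C₀) (q : ℝ) (hq : 2 ≤ q)
    (f : ℕ → ℕ → ℝ)
    (h1 : ∀ N, N * τ N ≤ ∑ m ∈ Finset.Icc 1 N, f N m)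
    (h2 : ∀ N m, 1 ≤ m → m ≤ N →
      f N m ≤ 3 / 4 * τ (N - m) + 5 / 4 + C₀ * (1 + N) / √(q ^ m) * τ (N - m))
    (h3 : ∀ N m, 1 ≤ m → m ≤ N → f N m ≤ 4 * τ (N - m)) : ∃ B : ℝ, ∀ N, τ N ≤ B := by
  obtain ⟨N₁, hN₁⟩ := evn (20 * C₀)
  obtain ⟨B₀, hB₀⟩ : ∃ B₀ : ℝ, ∀ n ≤ N₁, τ n ≤ B₀ :=
    ⟨∑ n ∈ Finset.range (N₁ + 1), τ n, fun n hn =>
      Finset.single_le_sum (f := τ) (fun i _ => hτ i) (Finset.mem_range.2 (by omega))⟩
  set B := max B₀ 25 with hB
  have hB25 : 25 ≤ B := le_max_right _ _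
  refine ⟨B, fun N => ?_⟩
  induction N using Nat.strong_induction_on with
  | _ N ih =>
    rcases le_or_gt N N₁ with hN | hN
    · exact (hB₀ N hN).trans (le_max_left _ _)
    have hN0 : 0 < N := by omega
    have hbd : ∀ m ∈ Finset.Icc 1 N, f N m ≤ if m ≤ N / 40 then 4 * B else 4 / 5 * B + 5 / 4 := by
      intro m hm
      rw [Finset.mem_Icc] at hm
      have hlt : τ (N - m) ≤ B := ih _ (by omega)
      have h0 : 0 ≤ τ (N - m) := hτ _
      split_ifs with hmN
      · exact (h3 N m hm.1 hm.2).trans (by linarith)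
      · refine (h2 N m hm.1 hm.2).trans ?_
        have hm' : (N : ℝ) / 40 ≤ m := by
          have : N < 40 * (m + 1) := by omega
          have h4 : N ≤ 40 * m := by omega
          have : (N : ℝ) ≤ 40 * m := by exact_mod_cast h4
          linarith
        have h5 : (2 : ℝ) ^ ((N : ℝ) / 80) ≤ √(q ^ m) := by
          apply Real.le_sqrt_of_sq_le
          rw [← Real.rpow_natCast, ← Real.rpow_mul (by norm_num)]
          calc (2 : ℝ) ^ ((N : ℝ) / 80 * (2 : ℕ)) ≤ (2 : ℝ) ^ (m : ℝ) := by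
                apply Real.rpow_le_rpow_of_exponent_le (by norm_num)
                push_cast
                linarith
            _ = 2 ^ m := Real.rpow_natCast _ _
            _ ≤ q ^ m := pow_le_pow_left₀ (by norm_num) hq m
        have h6 := hN₁ N hN.le
        have hpos : 0 < √(q ^ m) := Real.sqrt_pos.2 (by positivity)
        have h7 : C₀ * (1 + N) / √(q ^ m) ≤ 1 / 20 := by
          rw [div_le_div_iff₀ hpos (by norm_num)]
          linarith
        have h8 : C₀ * (1 + N) / √(q ^ m) * τ (N - m) ≤ 1 / 20 * τ (N - m) :=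
          mul_le_mul_of_nonneg_right h7 h0
        linarith
    have h9 := (h1 N).trans (Finset.sum_le_sum hbd)
    have h10 : ∑ m ∈ Finset.Icc 1 N, (if m ≤ N / 40 then 4 * B else 4 / 5 * B + 5 / 4) ≤
        N * (4 / 5 * B + 5 / 4) + (N / 40 : ℕ) * (4 * B) := by
      have : ∀ m ∈ Finset.Icc 1 N, (if m ≤ N / 40 then 4 * B else 4 / 5 * B + 5 / 4) ≤
          (4 / 5 * B + 5 / 4) + if m ≤ N / 40 then 4 * B else 0 := by
        intro m _
        split_ifs <;> linarith
      refine (Finset.sum_le_sum this).trans ?_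
      rw [Finset.sum_add_distrib, Finset.sum_const, Nat.card_Icc, ← Finset.sum_filter,
        Finset.sum_const, nsmul_eq_mul, nsmul_eq_mul]
      have h11 : ((Finset.Icc 1 N).filter (fun m => m ≤ N / 40)).card ≤ N / 40 := by
        calc _ ≤ (Finset.Icc 1 (N / 40)).card := Finset.card_le_card (by
              intro m hm
              rw [Finset.mem_filter, Finset.mem_Icc] at hm
              rw [Finset.mem_Icc]
              exact ⟨hm.1.1, hm.2⟩)
          _ = N / 40 := by simp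
      have h12 : (((Finset.Icc 1 N).filter (fun m => m ≤ N / 40)).card : ℝ) ≤ (N / 40 : ℕ) := by
        exact_mod_cast h11
      have h13 : (N + 1 - 1 : ℕ) = N := by omega
      rw [h13]
      have : (((Finset.Icc 1 N).filter (fun m => m ≤ N / 40)).card : ℝ) * (4 * B) ≤
          (N / 40 : ℕ) * (4 * B) := mul_le_mul_of_nonneg_right h12 (by linarith)
      linarith
    have h14 : ((N / 40 : ℕ) : ℝ) ≤ N / 40 := by
      rw [le_div_iff₀ (by norm_num)]
      exact_mod_cast Nat.div_mul_le_self N 40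
    have h15 : ((N / 40 : ℕ) : ℝ) * (4 * B) ≤ N / 40 * (4 * B) :=
      mul_le_mul_of_nonneg_right h14 (by linarith)
    have hNpos : (0 : ℝ) < N := by exact_mod_cast hN0
    have h16 : (N : ℝ) * τ N ≤ N * B := by
      calc (N : ℝ) * τ N ≤ N * (4 / 5 * B + 5 / 4) + N / 40 * (4 * B) := by linarith
        _ = N * (9 / 10 * B + 5 / 4) := by ring
        _ ≤ N * B := mul_le_mul_of_nonneg_left (by linarith) hNpos.le
    exact le_of_mul_le_mul_left h16 hNpos

/-! ### Prime divisors -/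

section prime

variable {k : Type} [Field k]

theorem mem_prD {D Q : k[X]} (hD : D ≠ 0) :
    Q ∈ prD D ↔ Q.Monic ∧ Irreducible Q ∧ Q ∣ D := by
  unfold prD
  rw [Multiset.mem_toFinset, UniqueFactorizationMonoid.mem_normalizedFactors_iff' hD]
  constructor
  · rintro ⟨h1, h2, h3⟩
    refine ⟨?_, h1, h3⟩
    rw [← h2]
    exact Polynomial.monic_normalize h1.ne_zero
  · rintro ⟨h1, h2, h3⟩
    exact ⟨h2, h1.normalize_eq_self, h3⟩

theorem eq_of_dvd {P Q : k[X]} (hP : P.Monic) (hP' : Irreducible P) (hQ : Q.Monic)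
    (hQ' : Irreducible Q) (h : P ∣ Q) : P = Q :=
  Polynomial.eq_of_monic_of_associated hP hQ (hP'.associated_of_dvd hQ' h)

theorem prD_mul {D Q : k[X]} (hD : D.Monic) (hQ : Q.Monic) (hQ' : Irreducible Q) :
    prD (D * Q) = insert Q (prD D) := by
  ext P
  rw [mem_prD (hD.mul hQ).ne_zero, Finset.mem_insert, mem_prD hD.ne_zero]
  constructor
  · rintro ⟨h1, h2, h3⟩
    rcases h2.prime.dvd_or_dvd h3 with h | h
    · exact Or.inr ⟨h1, h2, h⟩
    · exact Or.inl (eq_of_dvd h1 h2 hQ hQ' h)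
  · rintro (rfl | ⟨h1, h2, h3⟩)
    · exact ⟨hQ, hQ', dvd_mul_left _ _⟩
    · exact ⟨h1, h2, h3.mul_right _⟩

theorem dg_prD {D : k[X]} (hD : D.Monic) (hs : Squarefree D) : dg (prD D) = D.natDegree := by
  unfold dg prD
  have h1 : (UniqueFactorizationMonoid.normalizedFactors D).Nodup :=
    (UniqueFactorizationMonoid.squarefree_iff_nodup_normalizedFactors hD.ne_zero).1 hs
  have h2 : (UniqueFactorizationMonoid.normalizedFactors D).prod = D := by
    rw [UniqueFactorizationMonoid.prod_normalizedFactors_eq hD.ne_zero, hD.normalize_eq_self]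
  have h3 : ∏ P ∈ (UniqueFactorizationMonoid.normalizedFactors D).toFinset, P = D := by
    have h4 := Finset.prod_val (UniqueFactorizationMonoid.normalizedFactors D).toFinset
    rw [Multiset.toFinset_val, h1.dedup, h2] at h4
    exact h4.symm
  conv_rhs => rw [← h3]
  rw [Polynomial.natDegree_prod_of_monic]
  intro P hP
  rw [Multiset.mem_toFinset, UniqueFactorizationMonoid.mem_normalizedFactors_iff' hD.ne_zero] at hP
  rw [← hP.2.1]
  exact Polynomial.monic_normalize hP.1.ne_zero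

theorem sqf_fin [Finite k] (B : k[X]) (N : ℕ) : (sqf B N).Finite := by
  refine Set.Finite.subset (s := (fun c : Fin (N + 1) → k => ∑ i : Fin (N + 1), C (c i) * X ^ (i : ℕ)) ''
    Set.univ) (Set.finite_univ.image _) ?_
  rintro Q ⟨-, h, -, -⟩
  refine ⟨fun i => Q.coeff i, trivial, ?_⟩
  simp only
  rw [Finset.sum_range (f := fun i => C (Q.coeff i) * X ^ i) |>.symm, ← h]
  exact Q.as_sum_range_C_mul_X_pow.symm

/-- the finite set -/
noncomputable def sq [Finite k] (B : k[X]) (N : ℕ) : Finset k[X] := (sqf_fin B N).toFinset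

theorem mem_sq [Finite k] {B D : k[X]} {N : ℕ} :
    D ∈ sq B N ↔ D.Monic ∧ D.natDegree = N ∧ Squarefree D ∧ IsCoprime D B := by
  unfold sq
  rw [Set.Finite.mem_toFinset]
  rfl

theorem card_sq [Finite k] (B : k[X]) (N : ℕ) : (sq B N).card ≤ Nat.card k ^ N := by
  haveI := Fintype.ofFinite k
  have h : Set.InjOn (fun (D : k[X]) (i : Fin N) => D.coeff i) (sq B N : Set k[X]) := by
    intro D hD D' hD' h
    rw [Finset.mem_coe, mem_sq] at hD hD'
    ext i
    rcases lt_trichotomy i N with hi | hi | hi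
    · exact congrFun h ⟨i, hi⟩
    · subst hi
      have e1 := hD.1.coeff_natDegree
      have e2 := hD'.1.coeff_natDegree
      rw [hD.2.1] at e1
      rw [hD'.2.1] at e2
      rw [e1, e2]
    · rw [coeff_eq_zero_of_natDegree_lt (by omega), coeff_eq_zero_of_natDegree_lt (by omega)]
  have h2 := Finset.card_le_card_of_injOn (s := sq B N) (t := Finset.univ) _ (fun D _ => Finset.mem_univ _) h
  rw [Finset.card_univ, Fintype.card_fun, Fintype.card_fin, ← Nat.card_eq_fintype_card] at h2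
  exact h2

theorem mem_irrD [Finite k] {Q : k[X]} {m : ℕ} :
    Q ∈ irrD k m ↔ Q.Monic ∧ Irreducible Q ∧ Q.natDegree = m := by
  unfold irrD
  rw [Set.Finite.mem_toFinset]
  rfl

/-- the primes of degree `m` not dividing `D` and `B` -/
noncomputable def pr [Finite k] (B D : k[X]) (m : ℕ) : Finset k[X] :=
  (irrD k m).filter (fun Q => Q ∉ prD D ∧ ¬ Q ∣ B)

theorem mem_pr [Finite k] {B D Q : k[X]} {m : ℕ} (hD : D ≠ 0) :
    Q ∈ pr B D m ↔ Q.Monic ∧ Irreducible Q ∧ Q.natDegree = m ∧ ¬ Q ∣ D ∧ ¬ Q ∣ B := by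
  unfold pr
  rw [Finset.mem_filter, mem_irrD, mem_prD hD]
  tauto

theorem sq_mul [Finite k] {B D Q : k[X]} {N m : ℕ} (hD : D ∈ sq B N) (hQ : Q ∈ pr B D m) :
    D * Q ∈ sq B (N + m) := by
  rw [mem_sq] at hD
  rw [mem_pr hD.1.ne_zero] at hQ
  obtain ⟨h1, h2, h3, h4⟩ := hD
  obtain ⟨g1, g2, g3, g4, g5⟩ := hQ
  rw [mem_sq]
  refine ⟨h1.mul g1, by rw [h1.natDegree_mul g1, h2, g3], ?_, ?_⟩
  · rw [squarefree_mul_iff]
    refine ⟨?_, h3, g2.squarefree⟩
    exact ((g2.coprime_iff_not_dvd.2 g4).symm).isRelPrime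
  · exact h4.mul_left (g2.coprime_iff_not_dvd.2 g5)

theorem sq_div [Finite k] {B D Q : k[X]} {N : ℕ} (hD : D ∈ sq B N) (hQ : Q ∈ prD D) :
    1 ≤ Q.natDegree ∧ Q.natDegree ≤ N ∧ D / Q ∈ sq B (N - Q.natDegree) ∧
      Q ∈ pr B (D / Q) Q.natDegree ∧ D / Q * Q = D := by
  rw [mem_sq] at hD
  obtain ⟨h1, h2, h3, h4⟩ := hD
  rw [mem_prD h1.ne_zero] at hQ
  obtain ⟨g1, g2, E, rfl⟩ := hQ
  have hE : E.Monic := g1.of_mul_monic_left h1
  have e : Q * E / Q = E := mul_div_cancel_left₀ E g2.ne_zero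
  have hdeg : N = Q.natDegree + E.natDegree := by rw [← h2, g1.natDegree_mul hE]
  rw [squarefree_mul_iff] at h3
  have hnd : ¬ Q ∣ E := fun h => g2.not_isUnit (h3.1 dvd_rfl h)
  have hnB : ¬ Q ∣ B := fun h => g2.not_isUnit
    ((IsCoprime.of_mul_left_left h4).isUnit_of_dvd' dvd_rfl h)
  refine ⟨g2.natDegree_pos, by omega, ?_, ?_, ?_⟩
  · rw [e, mem_sq]
    exact ⟨hE, by omega, h3.2.2, IsCoprime.of_mul_left_right h4⟩
  · rw [e, mem_pr hE.ne_zero]
    exact ⟨g1, g2, rfl, hnd, hnB⟩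
  · rw [e, mul_comm]

theorem count_id [Finite k] (B : k[X]) (N : ℕ) (A : k[X] → ℝ) :
    (N : ℝ) * ∑ D ∈ sq B N, A D =
      ∑ m ∈ Finset.Icc 1 N, ∑ D ∈ sq B (N - m), (m : ℝ) * ∑ Q ∈ pr B D m, A (D * Q) := by
  have h1 : (N : ℝ) * ∑ D ∈ sq B N, A D =
      ∑ D ∈ sq B N, ∑ Q ∈ prD D, (Q.natDegree : ℝ) * A D := by
    rw [Finset.mul_sum]
    refine Finset.sum_congr rfl fun D hD => ?_
    rw [mem_sq] at hD
    rw [← Finset.sum_mul]
    congr 1
    have := dg_prD hD.1 hD.2.2.1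
    rw [hD.2.1] at this
    rw [← this]
    unfold dg
    push_cast
    rfl
  rw [h1]
  simp only [Finset.mul_sum]
  rw [Finset.sum_sigma', Finset.sum_sigma', Finset.sum_sigma']
  refine Finset.sum_bij'
    (i := fun x _ => (⟨⟨x.2.natDegree, x.1 / x.2⟩, x.2⟩ : (_ : (_ : ℕ) × k[X]) × k[X]))
    (j := fun y _ => (⟨y.1.2 * y.2, y.2⟩ : (_ : k[X]) × k[X])) ?_ ?_ ?_ ?_ ?_
  · rintro ⟨D, Q⟩ h
    rw [Finset.mem_sigma] at h
    obtain ⟨a1, a2, a3, a4, a5⟩ := sq_div h.1 h.2
    simp only [Finset.mem_sigma, Finset.mem_Icc]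
    exact ⟨⟨⟨a1, a2⟩, a3⟩, a4⟩
  · rintro ⟨⟨m, D⟩, Q⟩ h
    simp only [Finset.mem_sigma, Finset.mem_Icc] at h
    have h2 := sq_mul h.1.2 h.2
    rw [Nat.sub_add_cancel h.1.1.2] at h2
    rw [Finset.mem_sigma]
    refine ⟨h2, ?_⟩
    have hD := mem_sq.1 h.1.2
    have hQ := (mem_pr hD.1.ne_zero).1 h.2
    exact (mem_prD (hD.1.mul hQ.1).ne_zero).2 ⟨hQ.1, hQ.2.1, dvd_mul_left _ _⟩
  · rintro ⟨D, Q⟩ h
    rw [Finset.mem_sigma] at h
    obtain ⟨a1, a2, a3, a4, a5⟩ := sq_div h.1 h.2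
    simp only
    rw [a5]
  · rintro ⟨⟨m, D⟩, Q⟩ h
    simp only [Finset.mem_sigma, Finset.mem_Icc] at h
    have hD := mem_sq.1 h.1.2
    have hQ := (mem_pr hD.1.ne_zero).1 h.2
    simp only
    rw [mul_div_cancel_right₀ _ hQ.2.1.ne_zero, hQ.2.2.1]
  · rintro ⟨D, Q⟩ h
    rw [Finset.mem_sigma] at h
    obtain ⟨a1, a2, a3, a4, a5⟩ := sq_div h.1 h.2
    simp only
    rw [a5]

theorem nat_irr_le (hT : S_TRS) [Finite k] {m : ℕ} (hm : 0 < m) :
    (m : ℝ) * (irrD k m).card ≤ (Nat.card k : ℝ) ^ m := by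
  obtain ⟨F, _, _, _, h1, h2, h3, -⟩ := hT k m hm
  have h4 := h3 (fun _ => 1)
  rw [Finset.sum_const, Finset.sum_const, nsmul_eq_mul, nsmul_eq_mul, mul_one, mul_one] at h4
  rw [h4, ← h2]
  unfold cd
  rw [Nat.card_eq_fintype_card]
  exact_mod_cast Finset.card_le_univ _

theorem uT_one {g : k[X] → k[X]} {T : Finset k[X]} {Q : k[X]} (hQ : Q ∉ T) :
    uT g T = Function.update (uT g T) Q 1 := by
  funext P
  rcases eq_or_ne P Q with rfl | h
  · rw [Function.update_self]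
    unfold uT
    rw [if_neg hQ]
  · rw [Function.update_of_ne h]

theorem uT_ins {g : k[X] → k[X]} {T : Finset k[X]} {Q : k[X]} :
    uT g (insert Q T) = Function.update (uT g T) Q (g Q) := by
  funext P
  rcases eq_or_ne P Q with rfl | h
  · rw [Function.update_self]
    unfold uT
    rw [if_pos (Finset.mem_insert_self _ _)]
  · rw [Function.update_of_ne h]
    unfold uT
    simp [h]

theorem NRs.nd {g : k[X] → k[X]} (hg : NRs g) {P : k[X]} (hP : Irreducible P) : ¬ P ∣ g P := by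
  intro h
  apply hg P hP 0
  rw [show (0 : k[X]) ^ 2 - g P = - g P by ring]
  exact (dvd_neg).2 h

theorem goodT_uT [Finite k] {a b D : k[X]} {N : ℕ} (hD : D ∈ sq (dsc a b) N) {g : k[X] → k[X]}
    (hg : NRs g) (T : Finset k[X]) : GoodT a b (prD D) (uT g T) := by
  rw [mem_sq] at hD
  obtain ⟨h1, h2, h3, h4⟩ := hD
  refine ⟨fun P hP => ((mem_prD h1.ne_zero).1 hP).1, fun P hP => ((mem_prD h1.ne_zero).1 hP).2.1,
    fun P hP h => ?_, fun P hP h => ?_⟩
  · have := (mem_prD h1.ne_zero).1 hP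
    exact this.2.1.not_isUnit (h4.isUnit_of_dvd' this.2.2 h)
  · have := (mem_prD h1.ne_zero).1 hP
    unfold uT at h
    split_ifs at h
    · exact NRs.nd hg this.2.1 h
    · exact this.2.1.not_isUnit (isUnit_of_dvd_one h)

end prime

section main

variable {k K L O : Type} [Field k] [Finite k] [Field K] [Algebra k[X] K]
  [IsFractionRing k[X] K]
  [Field L] [Algebra K L] [Algebra k[X] L] [IsScalarTower k[X] K L] [CommRing O]
  [IsDedekindDomain O] [Algebra O L] [IsFractionRing O L] [Algebra k[X] O]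
  [IsScalarTower k[X] O L] [IsIntegralClosure O k[X] L] {a b : k[X]} {θ : L}

/-- the average over the local classes -/
noncomputable def Av (h : IsCub K a b θ) (O : Type) [CommRing O] [IsDedekindDomain O] [Algebra O L]
    [IsFractionRing O L] [Algebra k[X] O] (g : k[X] → k[X]) (D : k[X]) : ℝ :=
  (1 / 2 : ℝ) ^ (prD D).card * ∑ T ∈ (prD D).powerset, (sz (SelG h O (prD D) (uT g T)) : ℝ)

theorem Av_nonneg (h : IsCub K a b θ) (g : k[X] → k[X]) (D : k[X]) : 0 ≤ Av h O g D := by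
  unfold Av
  positivity

theorem Av_mul (h : IsCub K a b θ) (g : k[X] → k[X]) {N m : ℕ} {D Q : k[X]}
    (hD : D ∈ sq (dsc a b) N) (hQ : Q ∈ pr (dsc a b) D m) :
    Av h O g (D * Q) = (1 / 2 : ℝ) ^ ((prD D).card + 1) * ∑ T ∈ (prD D).powerset,
      ((sz (SelG h O (insert Q (prD D)) (Function.update (uT g T) Q 1)) : ℝ) +
        sz (SelG h O (insert Q (prD D)) (Function.update (uT g T) Q (g Q)))) := by
  have hD' := mem_sq.1 hD
  have hQ' := (mem_pr hD'.1.ne_zero).1 hQ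
  have hQD : Q ∉ prD D := fun h => hQ'.2.2.2.1 ((mem_prD hD'.1.ne_zero).1 h).2.2
  unfold Av
  rw [prD_mul hD'.1 hQ'.1 hQ'.2.1, Finset.card_insert_of_notMem hQD,
    Finset.sum_powerset_insert hQD, Finset.sum_add_distrib]
  congr 2
  · refine Finset.sum_congr rfl fun T hT => ?_
    rw [← uT_one]
    intro h
    exact hQD (Finset.mem_powerset.1 hT h)
  · refine Finset.sum_congr rfl fun T hT => ?_
    rw [uT_ins]

theorem avg_main (hONE : S_ONE) (hSTEP : S_STEP) (hREP : S_REP) (hGRP : S_GRP) (hTRS : S_TRS)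
    (h6 : (6 : k) ≠ 0) (h : IsCub K a b θ)
    (hp : ∃ p : k[X], Irreducible p ∧ p ∣ dsc a b ∧ ¬ p ^ 2 ∣ dsc a b)
    (g : k[X] → k[X]) (hg : NRs g) : ∃ B : ℝ, ∀ N : ℕ,
      ∑ D ∈ sq (dsc a b) N, Av h O g D ≤ B * (Nat.card k : ℝ) ^ N := by
  obtain ⟨C₀, hC₀⟩ := hONE k K L O a b θ h6 h hp
  have hq2 : (2 : ℝ) ≤ Nat.card k := by
    exact_mod_cast Finite.one_lt_card (α := k)
  have hqpos : (0 : ℝ) < Nat.card k := by linarith
  set q : ℝ := (Nat.card k : ℝ) with hq
  -- the two bounds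
  have hw1 : ∀ Q : k[X], Irreducible Q → ¬ Q ∣ (fun _ : k[X] => (1 : k[X])) Q :=
    fun Q hQ h => hQ.not_isUnit (isUnit_of_dvd_one h)
  have hw2 : ∀ Q : k[X], Irreducible Q → ¬ Q ∣ g Q := fun Q hQ => NRs.nd hg hQ
  have hsplit : ∀ (N m : ℕ) (D : k[X]), D ∈ sq (dsc a b) N →
      (m : ℝ) * ∑ Q ∈ pr (dsc a b) D m, Av h O g (D * Q) =
        (1 / 2 : ℝ) ^ ((prD D).card + 1) * ∑ T ∈ (prD D).powerset,
          ((m : ℝ) * ∑ Q ∈ pr (dsc a b) D m,
            (sz (SelG h O (insert Q (prD D)) (Function.update (uT g T) Q 1)) : ℝ) +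
          (m : ℝ) * ∑ Q ∈ pr (dsc a b) D m,
            (sz (SelG h O (insert Q (prD D)) (Function.update (uT g T) Q (g Q))) : ℝ)) := by
    intro N m D hD
    rw [Finset.sum_congr rfl fun Q hQ => Av_mul h g hD hQ, ← Finset.mul_sum, Finset.sum_comm,
      mul_left_comm, Finset.mul_sum]
    congr 1
    refine Finset.sum_congr rfl fun T _ => ?_
    rw [Finset.sum_add_distrib, mul_add]
  have hcardT : ∀ D : k[X], (1 / 2 : ℝ) ^ ((prD D).card + 1) * ∑ T ∈ (prD D).powerset, (2 : ℝ) = 1 := by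
    intro D
    rw [Finset.sum_const, Finset.card_powerset, nsmul_eq_mul, pow_succ]
    push_cast
    have : (1 / 2 : ℝ) ^ (prD D).card * 2 ^ (prD D).card = 1 := by
      rw [← mul_pow]
      norm_num
    linear_combination this
  have hb1 : ∀ (N m : ℕ) (D : k[X]), 1 ≤ m → D ∈ sq (dsc a b) N →
      (m : ℝ) * ∑ Q ∈ pr (dsc a b) D m, Av h O g (D * Q) ≤
        (3 / 4 * Av h O g D + 5 / 4) * q ^ m + C₀ * (1 + N) * √(q ^ m) * Av h O g D := by
    intro N m D hm hD
    rw [hsplit N m D hD]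
    have hdg : (dg (prD D) : ℝ) = N := by
      rw [mem_sq] at hD
      rw [dg_prD hD.1 hD.2.2.1, hD.2.1]
    have hT : ∀ T ∈ (prD D).powerset, ((m : ℝ) * ∑ Q ∈ pr (dsc a b) D m,
            (sz (SelG h O (insert Q (prD D)) (Function.update (uT g T) Q 1)) : ℝ) +
          (m : ℝ) * ∑ Q ∈ pr (dsc a b) D m,
            (sz (SelG h O (insert Q (prD D)) (Function.update (uT g T) Q (g Q))) : ℝ)) ≤
        2 * ((3 / 4 * sz (SelG h O (prD D) (uT g T)) + 5 / 4) * q ^ m +
          C₀ * (1 + N) * √(q ^ m) * sz (SelG h O (prD D) (uT g T))) := by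
      intro T _
      have e1 := hC₀ (prD D) (uT g T) (goodT_uT hD hg T) (fun _ => 1) hw1 m hm
      have e2 := hC₀ (prD D) (uT g T) (goodT_uT hD hg T) g hw2 m hm
      rw [hdg] at e1 e2
      unfold pr
      linarith
    refine (mul_le_mul_of_nonneg_left (Finset.sum_le_sum hT) (by positivity)).trans (le_of_eq ?_)
    have e3 := hcardT D
    unfold Av
    rw [← Finset.mul_sum, Finset.sum_add_distrib, ← Finset.sum_mul, Finset.sum_add_distrib,
      ← Finset.mul_sum, ← Finset.mul_sum]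
    rw [Finset.sum_const, nsmul_eq_mul] at e3 ⊢
    rw [pow_succ] at e3 ⊢
    linear_combination (5 / 4 * q ^ m) * e3
  have hb2 : ∀ (N m : ℕ) (D : k[X]), 1 ≤ m → D ∈ sq (dsc a b) N →
      (m : ℝ) * ∑ Q ∈ pr (dsc a b) D m, Av h O g (D * Q) ≤ 4 * Av h O g D * q ^ m := by
    intro N m D hm hD
    rw [hsplit N m D hD]
    have hD' := mem_sq.1 hD
    have key : ∀ T : Finset k[X], ∀ w : k[X] → k[X], (∀ Q : k[X], Irreducible Q → ¬ Q ∣ w Q) →
        (m : ℝ) * ∑ Q ∈ pr (dsc a b) D m,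
          (sz (SelG h O (insert Q (prD D)) (Function.update (uT g T) Q (w Q))) : ℝ) ≤
        4 * sz (SelG h O (prD D) (uT g T)) * q ^ m := by
      intro T w hw
      have hgood := goodT_uT hD hg T
      have hne := (hREP k K L O a b θ h6 h).2 (prD D) (uT g T) hgood
        (hGRP k K L O a b θ h6 h (prD D) (uT g T) hgood).1
      have hQ : ∀ Q ∈ pr (dsc a b) D m,
          (sz (SelG h O (insert Q (prD D)) (Function.update (uT g T) Q (w Q))) : ℝ) ≤
            4 * sz (SelG h O (prD D) (uT g T)) := by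
        intro Q hQ
        have hQ' := (mem_pr hD'.1.ne_zero).1 hQ
        have hQD : Q ∉ prD D := fun h => hQ'.2.2.2.1 ((mem_prD hD'.1.ne_zero).1 h).2.2
        obtain ⟨T', -, -, -, -, -, h7⟩ := hSTEP k K L O a b θ h6 h (prD D) (uT g T) hgood hne Q
          hQ'.1 hQ'.2.1 hQD hQ'.2.2.2.2 (w Q) (hw Q hQ'.2.1)
        have h8 : sz (SelG h O (prD D) (uT g T) ⊓ T') ≤ sz (SelG h O (prD D) (uT g T)) :=
          Subgroup.relIndex_le_of_le_right inf_le_left hne
        have h9 := h7.trans (Nat.mul_le_mul_left 4 h8)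
        exact_mod_cast h9
      have h10 := Finset.sum_le_sum hQ
      rw [Finset.sum_const, nsmul_eq_mul] at h10
      have h11 := nat_irr_le (k := k) hTRS (show 0 < m by omega)
      have h12 : (m : ℝ) * (pr (dsc a b) D m).card ≤ q ^ m := by
        refine le_trans ?_ h11
        refine mul_le_mul_of_nonneg_left ?_ (Nat.cast_nonneg m)
        exact_mod_cast Finset.card_filter_le _ _
      calc _ ≤ (m : ℝ) * ((pr (dsc a b) D m).card * (4 * sz (SelG h O (prD D) (uT g T)))) :=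
            mul_le_mul_of_nonneg_left h10 (Nat.cast_nonneg m)
        _ = ((m : ℝ) * (pr (dsc a b) D m).card) * (4 * sz (SelG h O (prD D) (uT g T))) := by ring
        _ ≤ q ^ m * (4 * sz (SelG h O (prD D) (uT g T))) :=
            mul_le_mul_of_nonneg_right h12 (by positivity)
        _ = _ := by ring
    have hT : ∀ T ∈ (prD D).powerset, ((m : ℝ) * ∑ Q ∈ pr (dsc a b) D m,
            (sz (SelG h O (insert Q (prD D)) (Function.update (uT g T) Q 1)) : ℝ) +
          (m : ℝ) * ∑ Q ∈ pr (dsc a b) D m,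
            (sz (SelG h O (insert Q (prD D)) (Function.update (uT g T) Q (g Q))) : ℝ)) ≤
        8 * q ^ m * sz (SelG h O (prD D) (uT g T)) := by
      intro T _
      have e1 := key T (fun _ => 1) hw1
      have e2 := key T g hw2
      linarith
    refine (mul_le_mul_of_nonneg_left (Finset.sum_le_sum hT) (by positivity)).trans (le_of_eq ?_)
    unfold Av
    rw [← Finset.mul_sum, pow_succ]
    ring
  -- the recursion
  set τ : ℕ → ℝ := fun N => (∑ D ∈ sq (dsc a b) N, Av h O g D) / q ^ N with hτ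
  have hτ0 : ∀ N, 0 ≤ τ N := fun N => div_nonneg
    (Finset.sum_nonneg fun D _ => Av_nonneg h g D) (by positivity)
  have hren := renewal τ hτ0 C₀ (Nat.cast_nonneg _) q hq2
    (fun N m => (∑ D ∈ sq (dsc a b) (N - m), (m : ℝ) * ∑ Q ∈ pr (dsc a b) D m,
      Av h O g (D * Q)) / q ^ N)
  suffices hren' : ∃ B : ℝ, ∀ N, τ N ≤ B by
    obtain ⟨B, hB⟩ := hren'
    refine ⟨B, fun N => ?_⟩
    have := hB N
    simp only [hτ] at this
    rwa [div_le_iff₀ (by positivity)] at this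
  apply hren
  · intro N
    rw [← Finset.sum_div, ← count_id]
    simp only [hτ]
    rw [mul_div_assoc]
  · intro N m hm hmN
    have hqN : q ^ N = q ^ (N - m) * q ^ m := by rw [← pow_add, Nat.sub_add_cancel hmN]
    have hqm : 0 < q ^ m := by positivity
    have hqNm : 0 < q ^ (N - m) := by positivity
    have hsq : √(q ^ m) * √(q ^ m) = q ^ m := Real.mul_self_sqrt hqm.le
    have hsqpos : 0 < √(q ^ m) := Real.sqrt_pos.2 hqm
    have hNm : ((N - m : ℕ) : ℝ) ≤ N := by exact_mod_cast Nat.sub_le N m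
    have e1 : ∑ D ∈ sq (dsc a b) (N - m), (m : ℝ) * ∑ Q ∈ pr (dsc a b) D m, Av h O g (D * Q) ≤
        ∑ D ∈ sq (dsc a b) (N - m), ((3 / 4 * q ^ m + C₀ * (1 + N) * √(q ^ m)) * Av h O g D +
          5 / 4 * q ^ m) := by
      refine Finset.sum_le_sum fun D hD => (hb1 (N - m) m D hm hD).trans ?_
      have hA := Av_nonneg (O := O) h g D
      have : (C₀ : ℝ) * (1 + ((N - m : ℕ) : ℝ)) * √(q ^ m) * Av h O g D ≤
          C₀ * (1 + N) * √(q ^ m) * Av h O g D := by
        gcongr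
      linarith
    have eR : ∑ D ∈ sq (dsc a b) (N - m), ((3 / 4 * q ^ m + C₀ * (1 + N) * √(q ^ m)) * Av h O g D +
          5 / 4 * q ^ m) = (3 / 4 * q ^ m + C₀ * (1 + N) * √(q ^ m)) *
          ∑ D ∈ sq (dsc a b) (N - m), Av h O g D +
          ((sq (dsc a b) (N - m)).card : ℝ) * (5 / 4 * q ^ m) := by
      rw [Finset.sum_add_distrib, ← Finset.mul_sum, Finset.sum_const, nsmul_eq_mul]
    rw [eR] at e1
    have e2 : ((sq (dsc a b) (N - m)).card : ℝ) ≤ q ^ (N - m) := by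
      have := card_sq (dsc a b) (N - m)
      rw [hq]
      exact_mod_cast this
    have e3 : (∑ D ∈ sq (dsc a b) (N - m), Av h O g D) = τ (N - m) * q ^ (N - m) := by
      simp only [hτ]
      rw [div_mul_cancel₀ _ hqNm.ne']
    rw [e3] at e1
    rw [div_le_iff₀ (by positivity), hqN]
    refine e1.trans ?_
    have e4 : ((sq (dsc a b) (N - m)).card : ℝ) * (5 / 4 * q ^ m) ≤ q ^ (N - m) * (5 / 4 * q ^ m) :=
      mul_le_mul_of_nonneg_right e2 (by positivity)
    have e5 : ∀ s Q t x c : ℝ, 0 < s → s * s = Q → c / s * t * (x * Q) = c * s * (t * x) := by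
      intro s Q t x c hs hQ
      rw [← hQ]
      field_simp
    have e6 := e5 (√(q ^ m)) (q ^ m) (τ (N - m)) (q ^ (N - m)) (C₀ * (1 + (N : ℝ))) hsqpos hsq
    linarith [e4, e6]
  · intro N m hm hmN
    have hqN : q ^ N = q ^ (N - m) * q ^ m := by rw [← pow_add, Nat.sub_add_cancel hmN]
    have hqm : 0 < q ^ m := by positivity
    have hqNm : 0 < q ^ (N - m) := by positivity
    have e1 : ∑ D ∈ sq (dsc a b) (N - m), (m : ℝ) * ∑ Q ∈ pr (dsc a b) D m, Av h O g (D * Q) ≤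
        ∑ D ∈ sq (dsc a b) (N - m), 4 * Av h O g D * q ^ m :=
      Finset.sum_le_sum fun D hD => hb2 (N - m) m D hm hD
    have eR : ∑ D ∈ sq (dsc a b) (N - m), 4 * Av h O g D * q ^ m =
        4 * (∑ D ∈ sq (dsc a b) (N - m), Av h O g D) * q ^ m := by
      rw [← Finset.sum_mul, ← Finset.mul_sum]
    rw [eR] at e1
    have e3 : (∑ D ∈ sq (dsc a b) (N - m), Av h O g D) = τ (N - m) * q ^ (N - m) := by
      simp only [hτ]
      rw [div_mul_cancel₀ _ hqNm.ne']
    rw [e3] at e1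
    rw [div_le_iff₀ (by positivity), hqN]
    refine e1.trans (le_of_eq (by ring))

end main

theorem avg (hONE : S_ONE) (hSTEP : S_STEP) (hREP : S_REP) (hGRP : S_GRP) (hTRS : S_TRS) :
    S_AVG := by
  intro k K L O _ _ _ _ _ _ _ _ _ _ _ _ _ _ _ _ a b θ h6 h hp g hg
  obtain ⟨B, hB⟩ := avg_main (O := O) hONE hSTEP hREP hGRP hTRS h6 h hp g hg
  refine ⟨B, fun N => ?_⟩
  refine le_trans (le_of_eq ?_) (hB N)
  rw [finsum_mem_eq_finite_toFinset_sum _ (sqf_fin (dsc a b) N)]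
  rfl

end Run7.h550.TS
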